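import Mathlib

set_option autoImplicit false
set_option linter.all false

open MeasureTheory Set Filter Topology

namespace Pool.Agent.W918.ES

theorem exp_lip {x y M : ℝ} (hx : x ≤ M) (hy : y ≤ M) :
    |Real.exp x - Real.exp y| ≤ Real.exp M * |x - y| := by
  wlog h : x ≤ y generalizing x y
  · have := this hy hx (le_of_not_ge h)
    rwa [abs_sub_comm, abs_sub_comm y x] at this
  have h1 : Real.exp x ≤ Real.exp y := Real.exp_le_exp.2 h
  rw [abs_sub_comm, abs_of_nonneg (by linarith), abs_sub_comm x y, abs_of_nonneg (by linarith)]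
  have h2 : Real.exp x = Real.exp y * Real.exp (x - y) := by
    rw [← Real.exp_add]
    congr 1
    ring
  have h3 := Real.add_one_le_exp (x - y)
  have h4 : Real.exp y ≤ Real.exp M := Real.exp_le_exp.2 hy
  have h5 := Real.exp_pos y
  calc Real.exp y - Real.exp x = Real.exp y * (1 - Real.exp (x - y)) := by rw [h2]; ring
    _ ≤ Real.exp y * (y - x) := by
        apply mul_le_mul_of_nonneg_left _ h5.le
        linarith
    _ ≤ Real.exp M * (y - x) := mul_le_mul_of_nonneg_right h4 (by linarith)

theorem ac_exp {g : ℝ → ℝ} {a b : ℝ} (hg : AbsolutelyContinuousOnInterval g a b) :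
    AbsolutelyContinuousOnInterval (fun x => Real.exp (g x)) a b := by
  obtain ⟨M, hM⟩ := hg.exists_bound
  rw [absolutelyContinuousOnInterval_iff] at hg ⊢
  intro ε hε
  obtain ⟨δ, hδ, h⟩ := hg (ε / Real.exp M) (by positivity)
  refine ⟨δ, hδ, fun E hE hs => ?_⟩
  have h1 := h E hE hs
  rw [lt_div_iff₀ (Real.exp_pos M)] at h1
  refine lt_of_le_of_lt ?_ h1
  rw [Finset.sum_mul]
  apply Finset.sum_le_sum
  intro i hi
  have h2 := hE.1 i hi
  have h3 : ∀ x ∈ uIcc a b, g x ≤ M := fun x hx => (le_abs_self _).trans (hM x hx)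
  rw [Real.dist_eq, Real.dist_eq, mul_comm]
  exact exp_lip (h3 _ h2.1) (h3 _ h2.2)

theorem gronL1 {a b : ℝ} (hab : a ≤ b) {y β : ℝ → ℝ} {k : ℝ} (hy : ContinuousOn y (Icc a b))
    (hβ : IntervalIntegrable β volume a b) (hβ0 : ∀ s, 0 ≤ β s)
    (h : ∀ t ∈ Icc a b, y t ≤ k + ∫ s in a..t, β s * y s) :
    y b ≤ k * Real.exp (∫ s in a..b, β s) := by
  have hby : IntervalIntegrable (fun s => β s * y s) volume a b := by
    apply hβ.mul_continuousOn
    rwa [uIcc_of_le hab]
  set R : ℝ → ℝ := fun x => ∫ s in a..x, β s * y s with hR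
  set B : ℝ → ℝ := fun x => ∫ s in a..x, β s with hB
  have acR : AbsolutelyContinuousOnInterval R a b :=
    hby.absolutelyContinuousOnInterval_intervalIntegral left_mem_uIcc
  have acB : AbsolutelyContinuousOnInterval B a b :=
    hβ.absolutelyContinuousOnInterval_intervalIntegral left_mem_uIcc
  have acE : AbsolutelyContinuousOnInterval (fun x => Real.exp (-B x)) a b := ac_exp acB.neg
  set P : ℝ → ℝ := fun x => R x * Real.exp (-B x) + k * Real.exp (-B x) with hP
  have acP : AbsolutelyContinuousOnInterval P a b := (acR.mul acE).add (acE.const_mul k)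
  have hd : ∀ᵐ x ∂(volume.restrict (Icc a b)), deriv P x ≤ 0 := by
    rw [ae_restrict_iff' measurableSet_Icc]
    filter_upwards [hby.ae_hasDerivAt_integral, hβ.ae_hasDerivAt_integral] with x h1 h2 hx
    have hx' : x ∈ uIcc a b := by rwa [uIcc_of_le hab]
    have d1 : HasDerivAt R (β x * y x) x := h1 hx' a left_mem_uIcc
    have d2 : HasDerivAt B (β x) x := h2 hx' a left_mem_uIcc
    have d3 : HasDerivAt (fun x => Real.exp (-B x)) (Real.exp (-B x) * (-β x)) x := d2.neg.exp
    have d4 : HasDerivAt P ((β x * y x) * Real.exp (-B x) + R x * (Real.exp (-B x) * (-β x)) +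
        k * (Real.exp (-B x) * (-β x))) x := (d1.mul d3).add (d3.const_mul k)
    rw [d4.deriv]
    have h3 := h x hx
    have h4 := Real.exp_pos (-B x)
    have h5 : (β x * y x) * Real.exp (-B x) + R x * (Real.exp (-B x) * (-β x)) +
        k * (Real.exp (-B x) * (-β x)) = -((β x * Real.exp (-B x)) * (k + R x - y x)) := by ring
    rw [h5, neg_nonpos]
    exact mul_nonneg (mul_nonneg (hβ0 x) h4.le) (by linarith)
  have hint := acP.integral_deriv_eq_sub
  have hneg : ∫ x in a..b, deriv P x ≤ 0 := by
    have h1 : 0 ≤ ∫ x in a..b, -deriv P x := by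
      apply intervalIntegral.integral_nonneg_of_ae_restrict hab
      filter_upwards [hd] with x hx
      simpa using hx
    rw [intervalIntegral.integral_neg] at h1
    linarith
  have hPa : P a = k := by
    rw [hP, hR, hB]
    simp
  have h6 : P b ≤ k := by linarith
  have h7 : (R b + k) * Real.exp (-B b) ≤ k := by
    have : P b = (R b + k) * Real.exp (-B b) := by rw [hP]; ring
    rwa [this] at h6
  have h8 := h b ⟨hab, le_rfl⟩
  have h9 : R b + k ≤ k * Real.exp (B b) := by
    rw [Real.exp_neg, ← div_eq_mul_inv, div_le_iff₀ (Real.exp_pos _)] at h7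
    exact h7
  show y b ≤ k * Real.exp (B b)
  have : y b ≤ k + R b := h8
  linarith

end Pool.Agent.W918.ES
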