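import Pool.Agent.W795.ES.Stm
import Pool.Agent.W790.TQ.Est2
import Pool.Agent.W918.ES.GronL1

/-! ES-GR: growth of the time derivative. -/

set_option autoImplicit false
set_option linter.all false

open MeasureTheory Set Filter Topology Metric
open scoped InnerProductSpace NNReal ENNReal

namespace Pool.Agent.W918.ES

open Pool.Agent.W795.TQ
open Pool.Agent.W795.ES
open H772R2.NSR (Frame prim_cont memLp_ii ae_deriv_of_prim prim_shift)
open H772R2.NSG (St by_parts ii_of_int int_inner)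
open Pool.Agent.W790.TQ (toSt sq_prim prim_shift')

section proj

variable {H : Type} [NormedAddCommGroup H] [InnerProductSpace ℝ H] {N : ℕ}

/-- the projection onto the complement of the span of the `e j` -/
noncomputable def Pr (e : Fin N → H) : H →L[ℝ] H :=
  ContinuousLinearMap.id ℝ H - ∑ j, (innerSL ℝ (e j)).smulRight (e j)

theorem Pr_apply (e : Fin N → H) (x : H) : Pr e x = x - ∑ j, ⟪x, e j⟫_ℝ • e j := by
  unfold Pr
  simp only [ContinuousLinearMap.sub_apply, ContinuousLinearMap.id_apply, ContinuousLinearMap.sum_apply,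
    ContinuousLinearMap.smulRight_apply, innerSL_apply_apply]
  congr 1
  apply Finset.sum_congr rfl
  intro j _
  rw [real_inner_comm]

theorem Pr_orth (e : Fin N → H) (he : Orthonormal ℝ e) (x : H) (j : Fin N) : ⟪Pr e x, e j⟫_ℝ = 0 := by
  rw [Pr_apply, inner_sub_left, sum_inner]
  have h : ∀ i, ⟪⟪x, e i⟫_ℝ • e i, e j⟫_ℝ = if i = j then ⟪x, e j⟫_ℝ else 0 := by
    intro i
    rw [real_inner_smul_left]
    by_cases hij : i = j
    · subst hij
      rw [if_pos rfl, real_inner_self_eq_norm_sq, he.1]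
      ring
    · rw [if_neg hij, he.2 hij, mul_zero]
  simp only [h]
  simp

theorem Pr_inner (e : Fin N → H) (he : Orthonormal ℝ e) (x y : H) : ⟪Pr e x, Pr e y⟫_ℝ = ⟪x, Pr e y⟫_ℝ := by
  rw [Pr_apply e x, inner_sub_left, sum_inner]
  have h : ∀ i, ⟪⟪x, e i⟫_ℝ • e i, Pr e y⟫_ℝ = 0 := by
    intro i
    rw [real_inner_smul_left, real_inner_comm (Pr e y) (e i), Pr_orth e he, mul_zero]
  simp only [h]
  simp

theorem Pr_norm (e : Fin N → H) (he : Orthonormal ℝ e) (x : H) : ‖Pr e x‖ ≤ ‖x‖ := by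
  have h1 := Pr_inner e he x x
  rw [real_inner_self_eq_norm_sq] at h1
  have h2 := real_inner_le_norm x (Pr e x)
  by_contra h
  rw [not_le] at h
  nlinarith [norm_nonneg x, norm_nonneg (Pr e x)]

end proj

section eqn

variable {H K : Type} [NormedAddCommGroup H] [InnerProductSpace ℝ H] [CompleteSpace H]
  [NormedAddCommGroup K] [InnerProductSpace ℝ K] [CompleteSpace K]
  {W : Submodule ℝ (H × K)} {m : H → K} {B : H → H → K} {C c ν T M Φ : ℝ} {F F1 : ℝ → K} {u u1 : ℝ → H}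
  {z z1 : ℝ → K}

theorem q2_norm {q : H × K} (hc : 0 ≤ c) (hq : Smo W B c q) (h1 : ‖q.1‖ = 1) : ‖q.2‖ ≤ √c := by
  have h := hq.lap q hq.mem
  rw [real_inner_self_eq_norm_sq, abs_of_nonneg (by positivity), h1, mul_one] at h
  exact Real.le_sqrt_of_sq_le h

theorem ae_q (Fr : Frame W m C) (Tr : Tri W m B) (hν : 0 < ν) (hT : 0 < T) (hF : FH T F F1)
    (S : Str W m ν T F u u1 z z1) (hc : 0 ≤ c) (hM : 0 ≤ M) (hΦ : ∀ t ∈ Icc 0 T, ‖F t‖ ≤ Φ)
    (hu : ∀ t ∈ Icc 0 T, ‖u t‖ ≤ M) {q : H × K} (hq : Smo W B c q) (h1 : ‖q.1‖ = 1) :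
    ∀ᵐ s ∂(volume.restrict (Ioc 0 T)), |⟪u1 s, q.1⟫_ℝ| ≤ Φ * √c + ν * (c * M) + c * M ^ 2 := by
  obtain ⟨Z, St1⟩ := toSt hF S
  filter_upwards [St1.deriv_weak Fr hT, ae_restrict_mem measurableSet_Ioc] with s hs hsm
  have hsI : s ∈ Icc 0 T := Ioc_subset_Icc_self hsm
  have e1 := hs q hq.mem
  rw [e1, inner_add_left, inner_sub_left, real_inner_smul_left]
  have k1 : |⟪F s, q.2⟫_ℝ| ≤ Φ * √c :=
    (abs_real_inner_le_norm _ _).trans (mul_le_mul (hΦ s hsI) (q2_norm hc hq h1) (norm_nonneg _)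
      ((norm_nonneg _).trans (hΦ s hsI)))
  have hmem := S.mem s hsI
  have k2 : |⟪z s, q.2⟫_ℝ| ≤ c * M := by
    have := hq.lap _ hmem
    simp only at this
    exact this.trans (mul_le_mul_of_nonneg_left (hu s hsI) hc)
  have k3 : |⟪m (u s), q.2⟫_ℝ| ≤ c * M ^ 2 := by
    have h2 := hq.tri _ hmem _ hmem
    have h3 := Tr.diag _ hmem
    simp only at h2 h3
    rw [h3] at h2
    refine h2.trans (mul_le_mul_of_nonneg_left ?_ hc)
    rw [sq]
    exact mul_le_mul (hu s hsI) (hu s hsI) (norm_nonneg _) hM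
  have k4 : |ν * ⟪z s, q.2⟫_ℝ| ≤ ν * (c * M) := by
    rw [abs_mul, abs_of_pos hν]
    exact mul_le_mul_of_nonneg_left k2 hν.le
  calc |⟪F s, q.2⟫_ℝ - ν * ⟪z s, q.2⟫_ℝ + ⟪m (u s), q.2⟫_ℝ|
      ≤ |⟪F s, q.2⟫_ℝ - ν * ⟪z s, q.2⟫_ℝ| + |⟪m (u s), q.2⟫_ℝ| := abs_add_le _ _
    _ ≤ (|⟪F s, q.2⟫_ℝ| + |ν * ⟪z s, q.2⟫_ℝ|) + |⟪m (u s), q.2⟫_ℝ| := by
        gcongr
        exact abs_sub _ _
    _ ≤ _ := by linarith

theorem eta_bound (S : Str W m ν T F u u1 z z1) {q : H} {E : ℝ}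
    (h : ∀ᵐ s ∂(volume.restrict (Ioc 0 T)), |⟪u1 s, q⟫_ℝ| ≤ E) {a b : ℝ} (ha : 0 ≤ a) (hab : a ≤ b)
    (hb : b ≤ T) : |⟪u b - u a, q⟫_ℝ| ≤ E * (b - a) := by
  have hu1i : Integrable u1 (volume.restrict (Ioc 0 T)) := S.u1m.integrable (by norm_num)
  have e1 : ⟪u b - u a, q⟫_ℝ = ∫ s in a..b, ⟪q, u1 s⟫_ℝ := by
    rw [S.pu a b ha hab hb, real_inner_comm, intervalIntegral.integral_of_le hab,
      intervalIntegral.integral_of_le hab]
    exact (integral_inner (𝕜 := ℝ) (hu1i.mono_measure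
        (Measure.restrict_mono (Ioc_subset_Ioc ha hb) le_rfl)) q).symm
  rw [e1, ← Real.norm_eq_abs]
  have h2 := intervalIntegral.norm_integral_le_of_norm_le_const_ae (f := fun s => ⟪q, u1 s⟫_ℝ) (a := a)
    (b := b) (C := E) (by
      rw [ae_restrict_iff' measurableSet_Ioc] at h
      filter_upwards [h] with x hx hx2
      rw [uIoc_of_le hab] at hx2
      rw [Real.norm_eq_abs, real_inner_comm]
      exact hx ⟨by linarith [hx2.1], by linarith [hx2.2]⟩)
  rwa [abs_of_nonneg (by linarith : (0 : ℝ) ≤ b - a)] at h2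

/-- the pointwise inequality for the differences -/
theorem pt_ineq {N : ℕ} {δ A0 E : ℝ} {q : Fin N → H × K} {Λ : ℝ → ℝ}
    (hpt : ∀ (p1 p2 : H × K) (w1 : H) (f : K) (Λ η : ℝ), p1 ∈ W → p2 ∈ W → ‖p1.1‖ ≤ M → ‖p2.1‖ ≤ M →
      (∀ p ∈ W, ⟪w1, p.1⟫_ℝ = ⟪f - ν • (p2.2 - p1.2) + (m p2.1 - m p1.1), p.2⟫_ℝ) →
      0 ≤ Λ → 0 ≤ η → (∀ j, |⟪p2.1 - p1.1, (q j).1⟫_ℝ| ≤ η) →
      (∀ p ∈ W, (∀ j, ⟪p.1, (q j).1⟫_ℝ = 0) →
        -⟪m p.1, p1.2⟫_ℝ ≤ (1 - δ) * ν * ‖p.2‖ ^ 2 + Λ * ‖p.1‖ ^ 2) →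
      2 * ⟪w1, (p2.1 - p1.1) - ∑ j, ⟪p2.1 - p1.1, (q j).1⟫_ℝ • (q j).1⟫_ℝ
        ≤ 2 * (Λ + 1) * ‖(p2.1 - p1.1) - ∑ j, ⟪p2.1 - p1.1, (q j).1⟫_ℝ • (q j).1‖ ^ 2
          + A0 * (‖f‖ ^ 2 + η ^ 2))
    (Fr : Frame W m C) (hT : 0 < T) (hF : FH T F F1) (S : Str W m ν T F u u1 z z1)
    (hu : ∀ t ∈ Icc 0 T, ‖u t‖ ≤ M) (hE : 0 ≤ E)
    (hq : ∀ j, ∀ᵐ s ∂(volume.restrict (Ioc 0 T)), |⟪u1 s, (q j).1⟫_ℝ| ≤ E) (hΛ : ∀ t, 0 ≤ Λ t)
    (hnum : ∀ᵐ s ∂(volume.restrict (Ioc 0 T)), ∀ p ∈ W, (∀ j, ⟪p.1, (q j).1⟫_ℝ = 0) →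
      -⟪m p.1, z s⟫_ℝ ≤ (1 - δ) * ν * ‖p.2‖ ^ 2 + Λ s * ‖p.1‖ ^ 2) {h : ℝ} (hh : 0 < h) :
    ∀ᵐ s ∂(volume.restrict (Ioc 0 (T - h))),
      2 * ⟪u1 (s + h) - u1 s, Pr (fun j => (q j).1) (u (s + h) - u s)⟫_ℝ ≤
        2 * (Λ s + 1) * ‖Pr (fun j => (q j).1) (u (s + h) - u s)‖ ^ 2 +
          A0 * (‖F (s + h) - F s‖ ^ 2 + (E * h) ^ 2) := by
  obtain ⟨Z, St1⟩ := toSt hF S
  have hw := St1.deriv_weak Fr hT
  rw [ae_restrict_iff' measurableSet_Ioc] at hw hnum ⊢
  have hw2 := (quasiMeasurePreserving_add_right volume h).ae hw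
  filter_upwards [hw, hw2, hnum] with s k1 k2 k3 hs
  have hs1 : s ∈ Ioc 0 T := ⟨hs.1, by linarith [hs.2]⟩
  have hs2 : s + h ∈ Ioc 0 T := ⟨by linarith [hs.1], by linarith [hs.2]⟩
  have hsI := Ioc_subset_Icc_self hs1
  have hsI2 := Ioc_subset_Icc_self hs2
  have hmain := hpt (u s, z s) (u (s + h), z (s + h)) (u1 (s + h) - u1 s) (F (s + h) - F s) (Λ s) (E * h)
    (S.mem _ hsI) (S.mem _ hsI2) (hu s hsI) (hu _ hsI2) (by
      intro p hp
      have e1 := k1 hs1 p hp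
      have e2 := k2 hs2 p hp
      simp only at e1 e2 ⊢
      rw [inner_sub_left, e1, e2, ← inner_sub_left]
      congr 1
      rw [smul_sub]
      abel) (hΛ s) (by positivity) (by
      intro j
      have := eta_bound S (hq j) hs1.1.le (by linarith : s ≤ s + h) hsI2.2
      simp only
      rwa [add_sub_cancel_left] at this) (by
      intro p hp hpo
      exact k3 hs1 p hp hpo)
  rw [Pr_apply]
  exact hmain

/-- the inequality for the differences -/
theorem diff_ineq {N : ℕ} {A0 E G T0 : ℝ} {e : Fin N → H} (he : Orthonormal ℝ e) {Λ : ℝ → ℝ}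
    (hA0 : 0 < A0) (hT : 0 < T) (hT0 : T ≤ T0) (hF : FH T F F1) (S : Str W m ν T F u u1 z z1)
    (hG : (∫ s in (0 : ℝ)..T, ‖F1 s‖ ^ 2) ≤ G) (hΛ : ∀ t, 0 ≤ Λ t) (hΛi : IntervalIntegrable Λ volume 0 T)
    {h s0 t1 : ℝ} (hh : 0 < h) (hs0 : 0 ≤ s0) (hst : s0 < t1) (hth : t1 + h ≤ T)
    (hpt : ∀ᵐ s ∂(volume.restrict (Ioc 0 (T - h))),
      2 * ⟪u1 (s + h) - u1 s, Pr e (u (s + h) - u s)⟫_ℝ ≤
        2 * (Λ s + 1) * ‖Pr e (u (s + h) - u s)‖ ^ 2 + A0 * (‖F (s + h) - F s‖ ^ 2 + (E * h) ^ 2)) :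
    ‖Pr e (u (t1 + h) - u t1)‖ ^ 2 ≤
      (‖u (s0 + h) - u s0‖ ^ 2 + A0 * (G + T0 * E ^ 2) * h ^ 2) *
        Real.exp (∫ s in s0..t1, 2 * (Λ s + 1)) := by
  have hg1 : MemLp (fun s => u1 (s + h) - u1 s) 2 (volume.restrict (Ioc 0 (T - h))) := by
    have hmp : MeasurePreserving (fun s : ℝ => s + h) (volume.restrict (Ioc 0 (T - h)))
        (volume.restrict (Ioc h T)) := by
      have := (measurePreserving_add_right volume h).restrict_preimage
        (measurableSet_Ioc : MeasurableSet (Ioc h T))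
      rwa [preimage_add_const_Ioc, sub_self] at this
    exact ((S.u1m.mono_measure (Measure.restrict_mono (Ioc_subset_Ioc_left hh.le)
      le_rfl)).comp_measurePreserving hmp).sub
      (S.u1m.mono_measure (Measure.restrict_mono (Ioc_subset_Ioc_right (by linarith)) le_rfl))
  have hu1i : Integrable u1 (volume.restrict (Ioc 0 T)) := S.u1m.integrable (by norm_num)
  have hgp : ∀ a b, 0 ≤ a → a ≤ b → b ≤ T - h → (u (b + h) - u b) - (u (a + h) - u a) =
      ∫ s in a..b, (u1 (s + h) - u1 s) := by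
    intro a b ha hab hb
    have i1 : IntervalIntegrable u1 volume a b := ii_of_int hu1i ha hab (by linarith)
    have i2 : IntervalIntegrable (fun s => u1 (s + h)) volume a b := by
      have := (ii_of_int hu1i (by linarith : 0 ≤ a + h) (by linarith) (by linarith :
        b + h ≤ T)).comp_add_right h
      simpa using this
    rw [intervalIntegral.integral_sub i2 i1, intervalIntegral.integral_comp_add_right (fun s => u1 s),
      ← S.pu a b ha hab (by linarith), ← S.pu (a + h) (b + h) (by linarith) (by linarith)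
      (by linarith)]
    abel
  have hgi : Integrable (fun s => u1 (s + h) - u1 s) (volume.restrict (Ioc 0 (T - h))) :=
    hg1.integrable (by norm_num)
  -- the projections
  have hP1 : MemLp (fun s => Pr e (u1 (s + h) - u1 s)) 2 (volume.restrict (Ioc 0 (T - h))) :=
    (Pr e).comp_memLp' hg1
  have hPp : ∀ a b, 0 ≤ a → a ≤ b → b ≤ T - h →
      Pr e (u (b + h) - u b) - Pr e (u (a + h) - u a) = ∫ s in a..b, Pr e (u1 (s + h) - u1 s) := by
    intro a b ha hab hb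
    rw [← map_sub, hgp a b ha hab hb]
    exact ((Pr e).intervalIntegral_comp_comm (ii_of_int hgi ha hab hb)).symm
  have hPc := prim_cont hP1 hPp
  have hFc : ContinuousOn F (Icc 0 T) := prim_cont hF.memLp hF.prim
  have hF2 : Integrable (fun s => ‖F1 s‖ ^ 2) (volume.restrict (Ioc 0 T)) :=
    (memLp_two_iff_integrable_sq_norm hF.memLp.aestronglyMeasurable).mp hF.memLp
  set y : ℝ → ℝ := fun t => ‖Pr e (u (t + h) - u t)‖ ^ 2 with hy
  have hyc : ContinuousOn y (Icc s0 t1) :=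
    ((hPc.norm).pow 2).mono (Icc_subset_Icc hs0 (by linarith))
  have hβi : IntervalIntegrable (fun s => 2 * (Λ s + 1)) volume s0 t1 := by
    have h1 : IntervalIntegrable Λ volume s0 t1 := by
      apply hΛi.mono_set
      rw [uIcc_of_le hst.le, uIcc_of_le hT.le]
      exact Icc_subset_Icc hs0 (by linarith)
    exact (h1.add intervalIntegrable_const).const_mul 2
  set k : ℝ := ‖u (s0 + h) - u s0‖ ^ 2 + A0 * (G + T0 * E ^ 2) * h ^ 2 with hk
  have key : ∀ t ∈ Icc s0 t1, y t ≤ k + ∫ s in s0..t, 2 * (Λ s + 1) * y s := by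
    intro t ht
    rcases eq_or_lt_of_le ht.1 with h0 | h0
    · rw [← h0, intervalIntegral.integral_same, add_zero, hk, hy]
      have h1 := Pr_norm e he (u (s0 + h) - u s0)
      have h2 : ‖Pr e (u (s0 + h) - u s0)‖ ^ 2 ≤ ‖u (s0 + h) - u s0‖ ^ 2 :=
        pow_le_pow_left₀ (norm_nonneg _) h1 2
      have h3 : 0 ≤ ∫ s in (0 : ℝ)..T, ‖F1 s‖ ^ 2 :=
        intervalIntegral.integral_nonneg hT.le fun s _ => by positivity
      have h4 : 0 ≤ G := h3.trans hG
      have h5 : 0 ≤ A0 * (G + T0 * E ^ 2) * h ^ 2 := by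
        have : 0 ≤ T0 := by linarith
        positivity
      simp only
      linarith
    · have htT : t ≤ T - h := by linarith [ht.2]
      have e1 := sq_prim hP1 hPp hs0 h0.le htT
      have hIi : IntervalIntegrable (fun s => 2 * ⟪Pr e (u1 (s + h) - u1 s), Pr e (u (s + h) - u s)⟫_ℝ)
          volume s0 t := by
        refine (ii_of_int (T := T - h) (int_inner hP1 (by
            obtain ⟨B, hB⟩ := (isCompact_Icc.image_of_continuousOn hPc).isBounded.exists_norm_le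
            refine MemLp.of_bound ((hPc.mono Ioc_subset_Icc_self).aestronglyMeasurable
              measurableSet_Ioc) B ?_
            filter_upwards [ae_restrict_mem measurableSet_Ioc] with s hs
            exact hB _ ⟨s, Ioc_subset_Icc_self hs, rfl⟩)) hs0 h0.le htT).const_mul 2
      have hsub0 : uIcc s0 t ⊆ Icc 0 T := by
        rw [uIcc_of_le h0.le]
        exact Icc_subset_Icc hs0 (by linarith)
      have hsub1 : MapsTo (fun s => s + h) (uIcc s0 t) (Icc 0 T) := by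
        rw [uIcc_of_le h0.le]
        exact fun s hs => ⟨by linarith [hs.1], by linarith [hs.2]⟩
      have hEi : IntervalIntegrable (fun s => ‖F (s + h) - F s‖ ^ 2) volume s0 t :=
        ContinuousOn.intervalIntegrable
          ((((hFc.comp (by fun_prop) hsub1).sub (hFc.mono hsub0)).norm).pow 2)
      have hβi' : IntervalIntegrable (fun s => 2 * (Λ s + 1)) volume s0 t := by
        apply hβi.mono_set
        rw [uIcc_of_le h0.le, uIcc_of_le hst.le]
        exact Icc_subset_Icc le_rfl ht.2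
      have hyi : IntervalIntegrable (fun s => 2 * (Λ s + 1) * y s) volume s0 t := by
        apply hβi'.mul_continuousOn
        rw [uIcc_of_le h0.le]
        exact hyc.mono (Icc_subset_Icc le_rfl ht.2)
      have hRi : IntervalIntegrable (fun s => A0 * (‖F (s + h) - F s‖ ^ 2 + (E * h) ^ 2)) volume s0 t :=
        (hEi.add intervalIntegrable_const).const_mul A0
      have e2 : ∫ s in s0..t, 2 * ⟪Pr e (u1 (s + h) - u1 s), Pr e (u (s + h) - u s)⟫_ℝ ≤
          ∫ s in s0..t, (2 * (Λ s + 1) * y s + A0 * (‖F (s + h) - F s‖ ^ 2 + (E * h) ^ 2)) := by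
        refine intervalIntegral.integral_mono_ae_restrict h0.le hIi (hyi.add hRi) ?_
        have := ae_mono (Measure.restrict_mono (Ioc_subset_Ioc hs0 htT) le_rfl) hpt
        rw [Filter.EventuallyLE, ← restrict_Ioc_eq_restrict_Icc]
        filter_upwards [this] with s hs
        rw [Pr_inner e he]
        exact hs
      rw [intervalIntegral.integral_add hyi hRi, intervalIntegral.integral_const_mul A0,
        intervalIntegral.integral_add hEi intervalIntegrable_const, intervalIntegral.integral_const,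
        smul_eq_mul] at e2
      have e3 := prim_shift' hF.memLp hF.prim hs0 h0 hh (by linarith : t + h ≤ T)
      have e4 : ∫ s in s0..(t + h), ‖F1 s‖ ^ 2 ≤ G := by
        refine le_trans ?_ hG
        have i1 := intervalIntegral.integral_add_adjacent_intervals
          (ii_of_int hF2 le_rfl hs0 (by linarith)) (ii_of_int hF2 hs0 (by linarith : s0 ≤ t + h) (by linarith))
        have i2 := intervalIntegral.integral_add_adjacent_intervals
          (ii_of_int hF2 le_rfl (by linarith : 0 ≤ t + h) (by linarith))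
          (ii_of_int hF2 (by linarith : 0 ≤ t + h) (by linarith : t + h ≤ T) le_rfl)
        have n1 : 0 ≤ ∫ s in (0 : ℝ)..s0, ‖F1 s‖ ^ 2 :=
          intervalIntegral.integral_nonneg hs0 fun s _ => by positivity
        have n2 : 0 ≤ ∫ s in (t + h)..T, ‖F1 s‖ ^ 2 :=
          intervalIntegral.integral_nonneg (by linarith) fun s _ => by positivity
        linarith
      have e5 : (∫ s in s0..(t + h), ‖F1 s‖ ^ 2) * h ^ 2 ≤ G * h ^ 2 :=
        mul_le_mul_of_nonneg_right e4 (by positivity)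
      have e6 : (t - s0) * (E * h) ^ 2 ≤ T0 * (E * h) ^ 2 :=
        mul_le_mul_of_nonneg_right (by linarith [ht.2]) (by positivity)
      have e7 : A0 * ((∫ s in s0..t, ‖F (s + h) - F s‖ ^ 2) + (t - s0) * (E * h) ^ 2) ≤
          A0 * (G * h ^ 2 + T0 * (E * h) ^ 2) :=
        mul_le_mul_of_nonneg_left (by linarith) hA0.le
      have h1 := Pr_norm e he (u (s0 + h) - u s0)
      have h2 : ‖Pr e (u (s0 + h) - u s0)‖ ^ 2 ≤ ‖u (s0 + h) - u s0‖ ^ 2 :=
        pow_le_pow_left₀ (norm_nonneg _) h1 2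
      have e8 : A0 * (G * h ^ 2 + T0 * (E * h) ^ 2) = A0 * (G + T0 * E ^ 2) * h ^ 2 := by ring
      rw [hk]
      show ‖Pr e (u (t + h) - u t)‖ ^ 2 ≤ _
      linarith
  exact gronL1 hst.le hyc hβi (fun s => by have := hΛ s; positivity) key

end eqn

theorem proof (hpt : Pool.Agent.W795.ES.S_pt) : Pool.Agent.W795.ES.S_gr := by
  intro N ν δ c M Φ T0 G hν hδ hc hM hΦ hT0 hG
  obtain ⟨A0, hA0, hA⟩ := hpt N ν δ c M hν hδ hc hM
  set E : ℝ := Φ * √c + ν * (c * M) + c * M ^ 2 with hE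
  have hE0 : 0 ≤ E := by positivity
  set D : ℝ := A0 * (G + T0 * E ^ 2) with hD
  have hD0 : 0 ≤ D := by positivity
  refine ⟨Real.exp T0 * (1 + √D) + N * E, by positivity, ?_⟩
  intro H K _ _ _ _ _ _ W m B C T F F1 u u1 z z1 q Λ Fr Tr hq ho hT hTT0 hF S hFb hub hF1 hΛ hΛi hnum
    s0 hs0 a ha
  have hqE : ∀ j, ∀ᵐ s ∂(volume.restrict (Ioc 0 T)), |⟪u1 s, (q j).1⟫_ℝ| ≤ E := fun j =>
    ae_q Fr Tr hν hT hF S hc hM hFb hub (hq j) (ho.1 j)
  have hptw : ∀ h, 0 < h → ∀ᵐ s ∂(volume.restrict (Ioc 0 (T - h))),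
      2 * ⟪u1 (s + h) - u1 s, Pr (fun j => (q j).1) (u (s + h) - u s)⟫_ℝ ≤
        2 * (Λ s + 1) * ‖Pr (fun j => (q j).1) (u (s + h) - u s)‖ ^ 2 +
          A0 * (‖F (s + h) - F s‖ ^ 2 + (E * h) ^ 2) := by
    intro h hh
    exact pt_ineq (fun p1 p2 w1 f Λ' η hp1 hp2 h1 h2 heq hΛ' hη hηj hn =>
      hA H K W m B q p1 p2 w1 f Λ' η Fr.anti Tr hq ho hp1 hp2 h1 h2 heq hΛ' hη hηj hn)
      Fr hT hF S hub hE0 hqE hΛ hnum hh
  have hG' := ae_deriv_of_prim hT (memLp_ii hT.le S.u1m) S.pu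
  have hne : ∀ᵐ s : ℝ ∂(volume.restrict (Ioc s0 T)), s ≠ T := by
    refine ae_restrict_of_ae ?_
    simp [ae_iff, measure_singleton]
  filter_upwards [ae_mono (Measure.restrict_mono (Ioc_subset_Ioc_left hs0.1.le) le_rfl) hG',
    ae_restrict_mem measurableSet_Ioc, hne] with t dt ht htne
  have htT : t < T := lt_of_le_of_ne ht.2 htne
  have hst : s0 < t := ht.1
  set I : ℝ := ∫ s in s0..t, Λ s with hI
  have hI0 : 0 ≤ I := intervalIntegral.integral_nonneg hst.le fun s _ => hΛ s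
  have hΛi' : IntervalIntegrable Λ volume s0 t := by
    apply hΛi.mono_set
    rw [uIcc_of_le hst.le, uIcc_of_le hT.le]
    exact Icc_subset_Icc hs0.1.le htT.le
  set Y : ℝ := Real.exp I * Real.exp T0 with hY
  have hY0 : 0 < Y := by positivity
  have hX : Real.exp (∫ s in s0..t, 2 * (Λ s + 1)) ≤ Y ^ 2 := by
    have e1 : ∫ s in s0..t, 2 * (Λ s + 1) = 2 * I + 2 * (t - s0) := by
      rw [intervalIntegral.integral_const_mul, intervalIntegral.integral_add hΛi' intervalIntegrable_const,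
        intervalIntegral.integral_const, smul_eq_mul, mul_one]
      ring
    rw [e1, hY, ← Real.exp_add, ← Real.exp_nat_mul]
    apply Real.exp_le_exp.2
    push_cast
    linarith [hs0.1]
  -- the bound for the differences
  have hdiff : ∀ h, 0 < h → h < T - t →
      ‖h⁻¹ • (u (t + h) - u t)‖ ≤ (‖h⁻¹ • (u (s0 + h) - u s0)‖ + √D) * Y + N * E := by
    intro h hh hhT
    have h1 := diff_ineq (E := E) ho hA0 hT hTT0 hF S hF1 hΛ hΛi hh hs0.1.le hst (by linarith : t + h ≤ T)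
      (hptw h hh)
    have h2 : ‖Pr (fun j => (q j).1) (u (t + h) - u t)‖ ^ 2 ≤ ((‖u (s0 + h) - u s0‖ + √D * h) * Y) ^ 2 := by
      refine h1.trans ?_
      rw [mul_pow]
      have h3 : ‖u (s0 + h) - u s0‖ ^ 2 + A0 * (G + T0 * E ^ 2) * h ^ 2 ≤
          (‖u (s0 + h) - u s0‖ + √D * h) ^ 2 := by
        have e1 : (√D * h) ^ 2 = D * h ^ 2 := by rw [mul_pow, Real.sq_sqrt hD0]
        have e2 : 0 ≤ ‖u (s0 + h) - u s0‖ * (√D * h) := by positivity
        rw [← hD]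
        nlinarith
      exact mul_le_mul h3 hX (Real.exp_pos _).le (by positivity)
    have h3 : ‖Pr (fun j => (q j).1) (u (t + h) - u t)‖ ≤ (‖u (s0 + h) - u s0‖ + √D * h) * Y :=
      (pow_le_pow_iff_left₀ (norm_nonneg _) (by positivity) (by norm_num)).mp h2
    have h4 : ‖∑ j, ⟪u (t + h) - u t, (q j).1⟫_ℝ • (q j).1‖ ≤ N * (E * h) := by
      refine (norm_sum_le _ _).trans ?_
      have h5 : ∀ j ∈ (Finset.univ : Finset (Fin N)), ‖⟪u (t + h) - u t, (q j).1⟫_ℝ • (q j).1‖ ≤ E * h := by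
        intro j _
        have h6 := eta_bound S (hqE j) (by linarith [hs0.1] : 0 ≤ t) (by linarith : t ≤ t + h) (by linarith)
        rw [add_sub_cancel_left] at h6
        rw [norm_smul, ho.1 j, mul_one, Real.norm_eq_abs]
        exact h6
      refine (Finset.sum_le_card_nsmul _ _ _ h5).trans ?_
      rw [Finset.card_univ, Fintype.card_fin, nsmul_eq_mul]
    have h5 : ‖u (t + h) - u t‖ ≤ (‖u (s0 + h) - u s0‖ + √D * h) * Y + N * (E * h) := by
      have e1 : u (t + h) - u t = Pr (fun j => (q j).1) (u (t + h) - u t) +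
          ∑ j, ⟪u (t + h) - u t, (q j).1⟫_ℝ • (q j).1 := by
        rw [Pr_apply]
        abel
      calc ‖u (t + h) - u t‖ = ‖Pr (fun j => (q j).1) (u (t + h) - u t) +
          ∑ j, ⟪u (t + h) - u t, (q j).1⟫_ℝ • (q j).1‖ := by rw [← e1]
        _ ≤ _ := (norm_add_le _ _).trans (add_le_add h3 h4)
    rw [norm_smul, norm_smul, norm_inv, Real.norm_eq_abs, abs_of_pos hh]
    have h6 := mul_le_mul_of_nonneg_left h5 (by positivity : 0 ≤ h⁻¹)
    refine h6.trans (le_of_eq ?_)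
    field_simp
  have l1 : Tendsto (fun h : ℝ => ‖h⁻¹ • (u (t + h) - u t)‖) (𝓝[>] 0) (𝓝 ‖u1 t‖) :=
    dt.tendsto_slope_zero_right.norm
  have l2 : Tendsto (fun h : ℝ => (‖h⁻¹ • (u (s0 + h) - u s0)‖ + √D) * Y + N * E) (𝓝[>] 0)
      (𝓝 ((‖a‖ + √D) * Y + N * E)) :=
    ((ha.tendsto_slope_zero_right.norm.add_const _).mul_const _).add_const _
  have hfin : ‖u1 t‖ ≤ (‖a‖ + √D) * Y + N * E := by
    refine le_of_tendsto_of_tendsto l1 l2 ?_
    have hlt : ∀ᶠ h : ℝ in 𝓝[>] 0, h < T - t := by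
      have : Iio (T - t) ∈ 𝓝 (0 : ℝ) := Iio_mem_nhds (by linarith)
      exact mem_nhdsWithin_of_mem_nhds this
    filter_upwards [hlt, self_mem_nhdsWithin] with h hh1 hh2
    exact hdiff h hh2 hh1
  refine hfin.trans ?_
  have e1 : 1 ≤ Real.exp I := Real.one_le_exp hI0
  have e2 : ‖a‖ + √D ≤ (1 + √D) * (1 + ‖a‖) := by
    have := mul_nonneg (Real.sqrt_nonneg D) (norm_nonneg a)
    nlinarith
  have e3 : 0 ≤ (N : ℝ) * E := by positivity
  have e4 : (N : ℝ) * E ≤ N * E * ((1 + ‖a‖) * Real.exp I) := by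
    apply le_mul_of_one_le_right e3
    have := norm_nonneg a
    nlinarith
  calc (‖a‖ + √D) * Y + N * E ≤ ((1 + √D) * (1 + ‖a‖)) * Y + N * E * ((1 + ‖a‖) * Real.exp I) :=
        add_le_add (mul_le_mul_of_nonneg_right e2 hY0.le) e4
    _ = (Real.exp T0 * (1 + √D) + N * E) * (1 + ‖a‖) * Real.exp I := by
        rw [hY]
        ring

end Pool.Agent.W918.ES
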